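import Pool.Agent.Q70.BxF

/-!
# Positive lower growth rate of the prefixes and Hausdorff dimension zero

Answer to Q1 of MP_523de7_an: **no** (the implication is false).  The base is the Pisot number
`β ≈ 1.8885` with `β⁵ = β⁴ + β³ + β² + 1`.
-/

namespace Pool.Agent.Results.MP_523de7_an.PositiveGrowthZeroDim

open Filter Topology

/-- Infinite binary sequences `ε 0, ε 1, …` (the problem's `ε₁, ε₂, …`). -/
def BinSeq : Type := ℕ → Bool

/-- The digit `0` or `1` of a letter. -/
def digit (x : Bool) : ℝ := if x then 1 else 0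

/-- The distance `d(y,z) = 2^{-n(y,z)}` for `y ≠ z`, where `n(y,z)` is the first place at which `y`
and `z` differ; places are counted from `1`, so `n(y,z)` is the least index (from `0`) plus one. -/
noncomputable def bdist (y z : BinSeq) : ℝ :=
  open Classical in if h : ∃ i : ℕ, y i ≠ z i then (1 / 2 : ℝ) ^ (Nat.find h + 1) else 0

lemma bdist_aux (x y : ℕ → Bool) :
    (open Classical in if h : ∃ i : ℕ, x i ≠ y i then (1 / 2 : ℝ) ^ (Nat.find h + 1) else 0)
      = Q70.Bx.bdist x y := by
  classical
  unfold Q70.Bx.bdist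
  by_cases h : ∃ i : ℕ, x i ≠ y i
  · have hne : ¬ x = y := fun he => h.elim fun i hi => hi (by rw [he])
    rw [dif_pos h]
    split_ifs with h'
    · exact absurd h' hne
    congr 2
    have h1 := PiNat.apply_firstDiff_ne (E := fun _ => Bool) hne
    have h2 : Nat.find h ≤ PiNat.firstDiff (E := fun _ => Bool) x y := Nat.find_min' h h1
    have h3 : ¬ Nat.find h < PiNat.firstDiff (E := fun _ => Bool) x y := fun h4 =>
      Nat.find_spec h (PiNat.apply_eq_of_lt_firstDiff h4)
    omega
  · rw [dif_neg h]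
    push Not at h
    split_ifs with h'
    · rfl
    · exact absurd (funext h) h'

lemma bdist_eq (x y : BinSeq) : bdist x y = Q70.Bx.bdist x y := bdist_aux x y

/-- The metric space of binary sequences with the distance `bdist`. -/
noncomputable instance : MetricSpace BinSeq where
  dist := bdist
  dist_self x := by
    change bdist x x = 0
    rw [bdist_eq]
    exact dist_self (α := Q70.Bx.BinSeq) x
  dist_comm x y := by
    change bdist x y = bdist y x
    rw [bdist_eq, bdist_eq]
    exact dist_comm (α := Q70.Bx.BinSeq) x y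
  dist_triangle x y z := by
    change bdist x z ≤ bdist x y + bdist y z
    rw [bdist_eq, bdist_eq, bdist_eq]
    exact dist_triangle (α := Q70.Bx.BinSeq) x y z
  eq_of_dist_eq_zero := by
    intro x y h
    change bdist x y = 0 at h
    rw [bdist_eq] at h
    exact eq_of_dist_eq_zero (γ := Q70.Bx.BinSeq) h

/-- The set `Σ_β(x)` of `β`-expansions of `x`. -/
def expansions (β x : ℝ) : Set BinSeq := {ε | ∑' n : ℕ, digit (ε n) / β ^ (n + 1) = x}

/-- The number `N_k(x, β)` of `k`-prefixes: words of length `k` which begin a `β`-expansion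
of `x`. -/
noncomputable def prefixCount (β x : ℝ) (k : ℕ) : ℕ :=
  {w : Fin k → Bool | ∃ ε ∈ expansions β x, ∀ i : Fin k, w i = ε i}.ncard

/-- The lower growth rate. -/
noncomputable def lowerGrowth (β x : ℝ) : ℝ :=
  liminf (fun k : ℕ => Real.logb 2 (prefixCount β x k) / k) atTop

/-- The same sequence in the copy of the space used in the proof. -/
def toB (x : BinSeq) : Q70.Bx.BinSeq := x

/-- **Answer to Q1: no.**  There are a base `β ∈ (1,2)` and `x ∈ [0, 1/(β-1)]` for which the lower
growth rate of the number of prefixes of the `β`-expansions of `x` is positive (at least `1/133`),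
but the set of `β`-expansions of `x` has Hausdorff dimension zero. -/
theorem result : ∃ β x : ℝ, 1 < β ∧ β < 2 ∧ β ^ 5 = β ^ 4 + β ^ 3 + β ^ 2 + 1 ∧
    x ∈ Set.Icc 0 (1 / (β - 1)) ∧ 1 / 133 ≤ lowerGrowth β x ∧ 0 < lowerGrowth β x ∧
    dimH (expansions β x) = 0 := by
  have hpre : ∀ k, prefixCount Q70.Bx.β (Q70.Bx.vl Q70.Bx.ss) k = (Q70.Bx.Pre k).ncard := by
    intro k; rfl
  have hgr : 1 / 133 ≤ lowerGrowth Q70.Bx.β (Q70.Bx.vl Q70.Bx.ss) := by
    unfold lowerGrowth
    apply le_liminf_of_le
    · apply Filter.IsBoundedUnder.isCoboundedUnder_ge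
      refine ⟨1, ?_⟩
      rw [eventually_map]
      refine Eventually.of_forall fun k => ?_
      rw [hpre]
      rcases Nat.eq_zero_or_pos k with hk | hk
      · simp [hk]
      · rw [div_le_one (by exact_mod_cast hk)]
        rcases Nat.eq_zero_or_pos (Q70.Bx.Pre k).ncard with h0 | h0
        · rw [h0]; simp
        · rw [Real.logb_le_iff_le_rpow (by norm_num) (by exact_mod_cast h0), Real.rpow_natCast]
          exact_mod_cast Q70.Bx.pre_card_le k
    · filter_upwards [eventually_ge_atTop (Q70.Bx.tt 1)] with k hk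
      rw [hpre]
      exact Q70.Bx.growth k hk
  refine ⟨Q70.Bx.β, Q70.Bx.vl Q70.Bx.ss, Q70.Bx.β_one, Q70.Bx.β_two, Q70.Bx.β_eq,
    ⟨Q70.Bx.vl_nonneg _, Q70.Bx.vl_le _⟩, hgr, lt_of_lt_of_le (by norm_num) hgr, ?_⟩
  -- transfer of the dimension
  have hiso : Isometry toB := by
    apply Isometry.of_dist_eq
    intro x y
    exact (bdist_eq x y).symm
  have himg := hiso.dimH_image (expansions Q70.Bx.β (Q70.Bx.vl Q70.Bx.ss))
  rw [← himg]
  refine le_antisymm ((dimH_mono (X := Q70.Bx.BinSeq) ?_).trans Q70.Bx.bdd_dim.le) zero_le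
  rintro _ ⟨ε, hε, rfl⟩
  exact Q70.Bx.bdd_of_vl hε

end Pool.Agent.Results.MP_523de7_an.PositiveGrowthZeroDim
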